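import Pool.Agent.Helper74.UB.Goals5

namespace Pool.Agent.Helper1.UB

open Pool.Agent.Helper74.UB
open scoped Classical

lemma cube_le (K : ℕ) (hK : 10 ≤ K) : K ^ 3 ≤ 2 ^ K := by
  induction K, hK using Nat.le_induction with
  | base => norm_num
  | succ K hK ih =>
    have h1 : (K + 1) ^ 3 ≤ 2 * K ^ 3 := by
      obtain ⟨a, rfl⟩ := Nat.exists_eq_add_of_le hK
      ring_nf
      nlinarith [sq_nonneg a, Nat.zero_le (a ^ 3)]
    calc (K + 1) ^ 3 ≤ 2 * K ^ 3 := h1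
      _ ≤ 2 * 2 ^ K := by omega
      _ = 2 ^ (K + 1) := by ring

theorem lim : StmtLim := by
  intro η hη
  obtain ⟨K, hK⟩ := exists_nat_gt (max 10 (2000 / η))
  have hK10 : (10 : ℝ) < K := lt_of_le_of_lt (le_max_left _ _) hK
  have hKη : 2000 / η < K := lt_of_le_of_lt (le_max_right _ _) hK
  have hK10' : 10 ≤ K := by exact_mod_cast hK10.le
  have hKpos : (0 : ℝ) < K := by linarith
  have hη' : 2000 / (K : ℝ) < η := by
    rw [div_lt_iff₀ hη] at hKη
    rw [div_lt_iff₀ hKpos]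
    linarith
  have hc : ((K : ℝ)) ^ 3 ≤ 2 ^ K := by exact_mod_cast cube_le K hK10'
  refine ⟨K, by omega, 2 * K ^ 2 + 1, ⟨K ^ 2, by ring⟩, ?_, ?_⟩
  · push_cast
    have h1 : (32 : ℝ) / (7 * (2 * (K : ℝ) ^ 2 + 1 + 1)) ≤ 2000 / K := by
      rw [div_le_div_iff₀ (by positivity) hKpos]
      nlinarith
    linarith
  · push_cast
    have h1 : (30 : ℝ) * (16 * K + 63) / (2 * (K : ℝ) ^ 2 + 1 + 1) ≤ 1185 / K := by
      rw [div_le_div_iff₀ (by positivity) hKpos]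
      nlinarith
    have h2 : 48 * (3 * (2 * (K : ℝ) ^ 2 + 1) + 8 * K + 26) / (3 * 2 ^ K) ≤ 700 / K := by
      rw [div_le_div_iff₀ (by positivity) hKpos]
      have h3 : 48 * (3 * (2 * (K : ℝ) ^ 2 + 1) + 8 * K + 26) ≤ 2100 * K ^ 2 := by
        nlinarith
      nlinarith [mul_le_mul_of_nonneg_right h3 hKpos.le]
    have h4 : 1185 / (K : ℝ) + 700 / K ≤ 2000 / K := by
      rw [← add_div]
      gcongr
      norm_num
    linarith

end Pool.Agent.Helper1.UB
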