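import Pool.Agent.Helper74.UB.Goals5

/-!
# UB, packet MKF: the fire for given protected sets
-/

namespace Pool.Agent.Helper1.UB

open Pool.Agent.Helper74.UB Finset
open Pool.Agent.Helper34.FF (burn prot Legal saved sn rho)
open scoped Classical

theorem mkF : StmtMkF := by
  intro D V E F _ _ _ _ M c v₀ R hR hc hd he
  have hmono : ∀ s, fA M R v₀ s ⊆ fA M R v₀ (s + 1) := by
    intro s
    rw [fA]
    exact subset_union_left
  refine ⟨rfl, hmono, ?_, ?_, ?_, ?_, ?_, ?_, ?_⟩
  · intro s v hv
    rw [fA, mem_union, mem_filter] at hv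
    rcases hv with h | ⟨-, -, h⟩
    · exact Or.inl h
    · exact Or.inr h
  · intro s u hu v hv
    by_cases h : v ∈ R s
    · right
      rw [fQ, mem_filter]
      exact ⟨h, u, hu, hv⟩
    · left
      rw [fA, mem_union, mem_filter]
      exact Or.inr ⟨mem_univ _, h, u, hu, hv⟩
  · intro s v hv
    rw [fQ, mem_filter] at hv
    exact hv.2
  · intro s v hv
    rw [fQ, mem_filter] at hv ⊢
    obtain ⟨h, u, hu, hv⟩ := hv
    exact ⟨hR s h, u, hmono s hu, hv⟩
  · intro s t
    exact (hd s t).mono_left (filter_subset _ _)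
  · intro s
    exact (card_le_card (filter_subset _ _)).trans (hc s)
  · obtain ⟨v, h1, h2, h3⟩ := he
    refine ⟨v, ?_, h3⟩
    rw [fA, mem_union, mem_filter]
    exact Or.inr ⟨mem_univ _, h2, v₀, by rw [fA]; exact mem_singleton_self _, h1⟩

end Pool.Agent.Helper1.UB
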