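import Pool.Agent.Helper74.UB.Goals5

/-!
# UB, packet PB: protected vertices do not burn
-/

namespace Pool.Agent.Helper1.UB

open Pool.Agent.Helper74.UB Finset
open Pool.Agent.Helper34.FF (burn prot Legal saved sn rho)
open scoped Classical

theorem prot_mono {V : Type} (σ : ℕ → Finset V) {s t : ℕ} (h : s ≤ t) : prot σ s ⊆ prot σ t := by
  intro v hv
  rw [prot, mem_biUnion] at hv ⊢
  obtain ⟨r, hr, hv⟩ := hv
  rw [mem_Icc] at hr
  exact ⟨r, mem_Icc.2 ⟨hr.1, hr.2.trans h⟩, hv⟩

theorem burn_mono {V : Type} [Fintype V] (G : SimpleGraph V) (v₀ : V) (σ : ℕ → Finset V)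
    {s t : ℕ} (h : s ≤ t) : burn G v₀ σ s ⊆ burn G v₀ σ t := by
  induction h with
  | refl => exact subset_rfl
  | step _ ih =>
    refine ih.trans ?_
    rw [burn]
    exact subset_union_left

theorem pb : StmtPB := by
  intro V _ G v₀ σ hL
  refine ⟨?_, fun s t h => ⟨prot_mono σ h, burn_mono G v₀ σ h⟩, ?_, ?_⟩
  · intro s t
    rw [disjoint_left]
    intro v hv hb
    rw [prot, mem_biUnion] at hv
    obtain ⟨r, hr, hv⟩ := hv
    rw [mem_Icc] at hr
    have h1 : v ∉ burn G v₀ σ (r - 1) := disjoint_left.1 (hL r hr.1).2 hv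
    -- induction on the time
    have key : ∀ u, r - 1 ≤ u → v ∉ burn G v₀ σ u := by
      intro u hu
      induction hu with
      | refl => exact h1
      | @step m hm ih =>
        rw [burn, mem_union, not_or]
        refine ⟨ih, ?_⟩
        rw [mem_filter]
        rintro ⟨-, hn, -⟩
        apply hn
        rw [prot, mem_biUnion]
        exact ⟨r, mem_Icc.2 ⟨hr.1, by simp only [Nat.le_eq] at hm; omega⟩, hv⟩
    rcases le_total (r - 1) t with h | h
    · exact key t h hb
    · exact h1 (burn_mono G v₀ σ h hb)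
  · intro t
    rw [prot]
    refine card_biUnion_le.trans ?_
    calc ∑ u ∈ Icc 1 t, (σ u).card ≤ ∑ _u ∈ Icc 1 t, 1 :=
          sum_le_sum fun u hu => (hL u (mem_Icc.1 hu).1).1
      _ = t := by simp
  · intro t u v hu hA hv
    rw [burn, mem_union]
    right
    rw [mem_filter]
    exact ⟨mem_univ _, hv, u, hu, hA⟩

end Pool.Agent.Helper1.UB
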