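import Pool.Agent.Helper74.UB.Goals5

namespace Pool.Agent.Helper1.UB

open Pool.Agent.Helper74.UB Finset
open Pool.Agent.Helper34.FF (burn prot Legal saved sn rho)
open scoped Classical

lemma rho_bound {W : Type} [Fintype W] (G : SimpleGraph W) (T : W → Prop) (B A N : ℕ)
    (hB : ∀ v σ, T v → Legal G 1 v σ → (saved G v σ).card ≤ B)
    (hA : (univ.filter fun v => ¬ T v).card ≤ A) (hN0 : 0 < N) (hN : N ≤ Fintype.card W) :
    rho 1 G ≤ ((B : ℝ) + A) / N := by
  have hn : 0 < Fintype.card W := lt_of_lt_of_le hN0 hN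
  have hnR : (0 : ℝ) < Fintype.card W := by exact_mod_cast hn
  have h1 : ∀ v, (sn 1 G v : ℝ) ≤ (B : ℝ) + if ¬ T v then (Fintype.card W : ℝ) else 0 := by
    intro v
    by_cases hv : T v
    · have h2 : sn 1 G v ≤ B := by
        apply csSup_le'
        rintro m ⟨σ, hσ, rfl⟩
        exact hB v σ hv hσ
      simp only [hv, not_true_eq_false, if_false, add_zero]
      exact_mod_cast h2
    · have h2 : sn 1 G v ≤ Fintype.card W := by
        apply csSup_le'
        rintro m ⟨σ, hσ, rfl⟩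
        exact card_le_univ _
      have h3 : (sn 1 G v : ℝ) ≤ Fintype.card W := by exact_mod_cast h2
      simp only [hv, not_false_eq_true, if_true]
      have h4 : (0 : ℝ) ≤ B := Nat.cast_nonneg _
      linarith
  have h2 : (∑ v, (sn 1 G v : ℝ)) ≤ Fintype.card W * ((B : ℝ) + A) := by
    calc (∑ v, (sn 1 G v : ℝ))
        ≤ ∑ v, ((B : ℝ) + if ¬ T v then (Fintype.card W : ℝ) else 0) := sum_le_sum fun v _ => h1 v
      _ = Fintype.card W * (B : ℝ) + (univ.filter fun v => ¬ T v).card * (Fintype.card W : ℝ) := by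
          rw [sum_add_distrib, sum_const, card_univ, nsmul_eq_mul, ← sum_filter, sum_const,
            nsmul_eq_mul]
      _ ≤ Fintype.card W * ((B : ℝ) + A) := by
          have h3 : ((univ.filter fun v => ¬ T v).card : ℝ) ≤ A := by exact_mod_cast hA
          nlinarith
  have hNR : (0 : ℝ) < N := by exact_mod_cast hN0
  have hNn : (N : ℝ) ≤ Fintype.card W := by exact_mod_cast hN
  have hBA : (0 : ℝ) ≤ (B : ℝ) + A := by positivity
  unfold rho
  calc (∑ v, (sn 1 G v : ℝ)) / (Fintype.card W : ℝ) ^ 2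
      ≤ (Fintype.card W * ((B : ℝ) + A)) / (Fintype.card W : ℝ) ^ 2 := by gcongr
    _ = ((B : ℝ) + A) / Fintype.card W := by
        field_simp
    _ ≤ ((B : ℝ) + A) / N := by gcongr

theorem rho (h1 : StmtSaved) (h2 : StmtAtyp) (h3 : StmtAvg) : StmtRho := by
  intro K h V D E F _ _ _ _ L f M dE dW dU dN hH hL
  have hn := (h3 K h V D E F L f M dE dW dU dN hH hL).2
  have hA := h2 K h V D E F L f M dE dW dU dN hH hL
  have hB := h1 K h V D E F L f M dE dW dU dN hH hL
  have hN0 : 0 < 3 * 2 ^ K * (h + 1) := by positivity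
  have key := rho_bound (GS M) (Typ M L.row (16 * K + 60) (h - 16 * K - 60))
    (30 * (3 * 2 ^ K) + 48 * (3 * h + 8 * K + 26) * (h + 1)) (30 * (3 * 2 ^ K) * (16 * K + 62))
    (3 * 2 ^ K * (h + 1)) (fun v σ hv hσ => hB v σ hv hσ) hA hN0 hn
  refine key.trans (le_of_eq ?_)
  push_cast
  have e1 : (2 : ℝ) ^ K ≠ 0 := by positivity
  have e2 : (h : ℝ) + 1 ≠ 0 := by positivity
  field_simp
  ring

end Pool.Agent.Helper1.UB
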